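import Mathlib
import Pool.Agent.H892.KT.Stm

set_option autoImplicit false

open Filter Topology Set
open Pool.Agent.H892.KT

namespace Pool.Agent.H190.KT

/-- the iteration -/
noncomputable def it {n : ℕ} (K : KatoData n) (e : ZMod n → OpenPartialHomeomorph (ℂ × ℂ) (ℂ × ℂ)) :
    ℕ → ZMod n → ℂ × ℂ → ℂ × ℂ
  | 0, _, _ => 0
  | k + 1, i, y => (e i).symm (hat (K.σ i y) (it K e k (i + 1) (bA (K.σ i y)))) - y

theorem t_FIX (h1 : S_OP) (h2 : S_LIM) : S_FIX := by
  intro n _ K N e hBG hO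
  choose ε₀ hε0 hε1 hOP using fun i => h1 n K N i (e i) (hBG i) (hO i)
  obtain ⟨i₀, hi₀⟩ := Finite.exists_min ε₀
  refine ⟨ε₀ i₀, hε0 i₀, hε1 i₀, fun ε hε hεl V W hW => ?_⟩
  have hop := fun i => hOP i ε hε (hεl.trans (hi₀ i)) V W hW
  have hW0 : ∀ i, ∀ y ∈ V i, 0 ≤ W i y := fun i y hy =>
    (pow_nonneg (norm_nonneg _) _).trans (hW.lower i y hy)
  have hW1 : ∀ i, ∀ y ∈ V i, W i y ≤ 1 := by
    intro i y hy
    refine (hW.upper i y hy).trans ?_
    have h3 : ‖y‖ ≤ 1 := (hW.small i y hy).le.trans (hεl.trans (hε1 i₀))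
    exact pow_le_one₀ (norm_nonneg _) h3
  have hq : ∀ k : ℕ, (0 : ℝ) ≤ (1 / 4) ^ k := fun k => by positivity
  have hinv : ∀ k : ℕ, (∀ i, DifferentiableOn ℂ (it K e k i) (V i)) ∧
      (∀ i, ∀ y ∈ V i, ‖it K e k i y‖ ≤ 1 / 3 * (1 - (1 / 4) ^ k) * W i y) ∧
      ∀ i, ∀ y ∈ V i, ‖it K e (k + 1) i y - it K e k i y‖ ≤ (1 / 4) ^ (k + 1) * W i y := by
    intro k
    induction k with
    | zero =>
      refine ⟨fun i => differentiableOn_const 0, fun i y hy => ?_, fun i y hy => ?_⟩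
      · show ‖(0 : ℂ × ℂ)‖ ≤ _
        simp
      · have h3 := (hop i).1 y hy
        show ‖(e i).symm (hat (K.σ i y) 0) - y - 0‖ ≤ _
        rw [sub_zero]
        refine h3.trans (le_of_eq ?_)
        ring
    | succ k ih =>
      obtain ⟨ih1, ih2, ih3⟩ := ih
      have hb : ∀ i, ∀ y ∈ V i, ‖it K e k i y‖ ≤ W i y := by
        intro i y hy
        refine (ih2 i y hy).trans ?_
        have := hq k
        nlinarith [hW0 i y hy, mul_nonneg (hq k) (hW0 i y hy)]
      have hd : ∀ i, DifferentiableOn ℂ (it K e (k + 1) i) (V i) := fun i =>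
        ((hop i).2 (it K e k (i + 1)) (ih1 (i + 1)) (hb (i + 1))).2.1
      have hn : ∀ i, ∀ y ∈ V i, ‖it K e (k + 1) i y‖ ≤ 1 / 3 * (1 - (1 / 4) ^ (k + 1)) * W i y := by
        intro i y hy
        have e1 : it K e (k + 1) i y = it K e k i y + (it K e (k + 1) i y - it K e k i y) := by
          abel
        rw [e1]
        refine (norm_add_le _ _).trans ?_
        refine (add_le_add (ih2 i y hy) (ih3 i y hy)).trans (le_of_eq ?_)
        rw [pow_succ]
        ring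
      have hb' : ∀ i, ∀ y ∈ V i, ‖it K e (k + 1) i y‖ ≤ W i y := by
        intro i y hy
        refine (hn i y hy).trans ?_
        nlinarith [hW0 i y hy, mul_nonneg (hq (k + 1)) (hW0 i y hy)]
      refine ⟨hd, hn, fun i y hy => ?_⟩
      have h4 := ((hop i).2 (it K e (k + 1) (i + 1)) (hd (i + 1)) (hb' (i + 1))).2.2
        (it K e k (i + 1)) (hb (i + 1)) ((1 / 4) ^ (k + 1)) (hq _) (ih3 (i + 1)) y hy
      have e2 : it K e (k + 1 + 1) i y - it K e (k + 1) i y =
          (e i).symm (hat (K.σ i y) (it K e (k + 1) (i + 1) (bA (K.σ i y)))) -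
          (e i).symm (hat (K.σ i y) (it K e k (i + 1) (bA (K.σ i y)))) := by
        show ((e i).symm (hat (K.σ i y) (it K e (k + 1) (i + 1) (bA (K.σ i y)))) - y) -
          ((e i).symm (hat (K.σ i y) (it K e k (i + 1) (bA (K.σ i y)))) - y) = _
        abel
      rw [e2]
      refine h4.trans (le_of_eq ?_)
      rw [pow_succ (1 / 4 : ℝ) (k + 1)]
      ring
  have hb : ∀ k i, ∀ y ∈ V i, ‖it K e k i y‖ ≤ W i y := by
    intro k i y hy
    refine ((hinv k).2.1 i y hy).trans ?_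
    nlinarith [hW0 i y hy, mul_nonneg (hq k) (hW0 i y hy)]
  obtain ⟨w, hw1, hw2, hw3⟩ := h2 (ZMod n) V W (it K e) hW.isOpen hW1 (fun i y => rfl)
    (fun k => (hinv k).1) (fun k => (hinv k).2.2)
  refine ⟨w, hw1, hw3, fun i y hy => ?_⟩
  have hopw := (hop i).2 (w (i + 1)) (hw1 (i + 1)) (hw3 (i + 1))
  have hT := hopw.1 y hy
  have hlim : ∀ k : ℕ, ‖(e i).symm (hat (K.σ i y) (w (i + 1) (bA (K.σ i y)))) - (y + w i y)‖ ≤
      2 * (1 / 4) ^ (k + 1) * W i y := by
    intro k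
    have h5 := hopw.2.2 (it K e k (i + 1)) (hb k (i + 1)) ((1 / 4) ^ k) (hq k)
      (hw2 k (i + 1)) y hy
    have h6 := hw2 (k + 1) i y hy
    have e3 : (e i).symm (hat (K.σ i y) (w (i + 1) (bA (K.σ i y)))) - (y + w i y) =
        ((e i).symm (hat (K.σ i y) (w (i + 1) (bA (K.σ i y)))) -
          (e i).symm (hat (K.σ i y) (it K e k (i + 1) (bA (K.σ i y))))) -
        (w i y - it K e (k + 1) i y) := by
      show _ = _ - (w i y - ((e i).symm (hat (K.σ i y) (it K e k (i + 1) (bA (K.σ i y)))) - y))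
      abel
    rw [e3]
    refine (norm_sub_le _ _).trans ((add_le_add h5 h6).trans (le_of_eq ?_))
    rw [pow_succ]
    ring
  have hzero : (e i).symm (hat (K.σ i y) (w (i + 1) (bA (K.σ i y)))) = y + w i y := by
    rw [← sub_eq_zero, ← norm_le_zero_iff]
    have ht : Tendsto (fun k : ℕ => 2 * (1 / 4 : ℝ) ^ (k + 1) * W i y) atTop (𝓝 0) := by
      have h7 : Tendsto (fun k : ℕ => (1 / 4 : ℝ) ^ (k + 1)) atTop (𝓝 0) :=
        (tendsto_pow_atTop_nhds_zero_of_lt_one (by norm_num) (by norm_num)).comp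
          (tendsto_add_atTop_nat 1)
      have h8 := (h7.const_mul 2).mul_const (W i y)
      simpa using h8
    exact ge_of_tendsto' ht hlim
  rw [← hzero]
  exact ⟨(e i).map_target hT, (e i).right_inv hT⟩

end Pool.Agent.H190.KT
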